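import Pool.Agent.Q194.VT.Emb

/-!
A certificate for `2`-torsion: a chain `W` and a cochain `F`, both given by bit masks.
-/

set_option autoImplicit false

namespace Pool.Agent.Q194.VT

open Finset MvPolynomial

/-- the list of the bits of `n` -/
def bs (n : ℕ) : List ℕ := (List.range 35).filter (fun i => n.testBit i)

/-- the multidegree -/
def B : Fin 4 → ℕ := ![22, 20, 14, 4]

/-- the exponent `β - ∑` of the coefficient -/
def R (n : ℕ) : Fin 4 → ℕ := B - sm n

/-- every number occurs an even number of times in the list -/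
def evenCheck : ℕ → List ℕ → Bool
  | 0, M => M.all (fun x => x == 0) && M.length % 2 == 0
  | _ + 1, [] => true
  | k + 1, a :: M => evenCheck k ((a :: M).filter (fun x => Nat.blt x (2 ^ k))) &&
      evenCheck k (((a :: M).filter (fun x => !(Nat.blt x (2 ^ k)))).map (fun x => x - 2 ^ k))

lemma sum_filter_add (M : List ℕ) (p : ℕ → Bool) (g : ℕ → ZMod 2) :
    (M.map g).sum = ((M.filter p).map g).sum + ((M.filter (fun x => !(p x))).map g).sum := by
  induction M with
  | nil => simp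
  | cons a M ih =>
    by_cases h : p a
    · simp only [List.map_cons, List.sum_cons, List.filter_cons, h, if_true, Bool.not_true,
        Bool.false_eq_true, if_false, ih]
      ring
    · simp only [List.map_cons, List.sum_cons, List.filter_cons, h, if_false, Bool.not_false,
        if_true, ih, Bool.false_eq_true]
      ring

lemma evenCheck_step (k : ℕ) (M : List ℕ)
    (ih : ∀ M : List ℕ, evenCheck k M = true → ∀ g : ℕ → ZMod 2, (M.map g).sum = 0)
    (h1 : evenCheck k (M.filter (fun x => Nat.blt x (2 ^ k))) = true)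
    (h2 : evenCheck k ((M.filter (fun x => !(Nat.blt x (2 ^ k)))).map (fun x => x - 2 ^ k)) = true)
    (g : ℕ → ZMod 2) : (M.map g).sum = 0 := by
  rw [sum_filter_add M (fun x => Nat.blt x (2 ^ k)) g, ih _ h1 g]
  have h3 := ih _ h2 (fun x => g (x + 2 ^ k))
  rw [List.map_map] at h3
  rw [zero_add, ← h3]
  refine congrArg List.sum (List.map_congr_left (fun x hx => ?_))
  have h4 := (List.mem_filter.mp hx).2
  have h5 : 2 ^ k ≤ x := by
    by_contra h6
    have h7 : Nat.blt x (2 ^ k) = true := by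
      rw [Nat.blt_eq]; exact not_le.mp h6
    rw [h7] at h4
    exact absurd h4 (by simp)
  simp only [Function.comp]
  rw [Nat.sub_add_cancel h5]

lemma evenCheck_sum : ∀ (k : ℕ) (M : List ℕ), evenCheck k M = true →
    ∀ g : ℕ → ZMod 2, (M.map g).sum = 0 := by
  intro k
  induction k with
  | zero =>
    intro M h g
    simp only [evenCheck, Bool.and_eq_true, List.all_eq_true, beq_iff_eq] at h
    obtain ⟨h1, h2⟩ := h
    have h3 : M = List.replicate M.length 0 := List.eq_replicate_iff.mpr ⟨rfl, h1⟩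
    rw [h3, List.map_replicate, List.sum_replicate, nsmul_eq_mul]
    have h4 : ((M.length : ℕ) : ZMod 2) = 0 :=
      (ZMod.natCast_eq_zero_iff _ _).mpr (Nat.dvd_of_mod_eq_zero h2)
    rw [h4, zero_mul]
  | succ k ih =>
    intro M h g
    cases M with
    | nil => simp
    | cons a M =>
      rw [evenCheck, Bool.and_eq_true] at h
      exact evenCheck_step k (a :: M) ih h.1 h.2 g

lemma mem_bs {n i : ℕ} : i ∈ bs n ↔ i ∈ bt n := by
  rw [bs, List.mem_filter, List.mem_range, mem_bt]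

lemma bs_nodup (n : ℕ) : (bs n).Nodup := List.Nodup.filter _ List.nodup_range

lemma bs_toFinset (n : ℕ) : (bs n).toFinset = bt n := by
  ext i; rw [List.mem_toFinset, mem_bs]

lemma sum_bt {M : Type*} [AddCommMonoid M] (n : ℕ) (f : ℕ → M) :
    ∑ i ∈ bt n, f i = ((bs n).map f).sum := by
  rw [← bs_toFinset, List.sum_toFinset _ (bs_nodup n)]

lemma card_bt (n : ℕ) : (bt n).card = (bs n).length := by
  rw [← bs_toFinset, List.toFinset_card_of_nodup (bs_nodup n)]

/-- the mask has `c` bits, all of them below `35`, and the sum of the exponents is at most `β` -/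
def okMask (c n : ℕ) : Bool :=
  Nat.blt n (2 ^ 35) && ((bs n).length == c) &&
    (((bs n).map (fun i => E i 0)).sum ≤ 22 : Bool) && (((bs n).map (fun i => E i 1)).sum ≤ 20 : Bool) &&
    (((bs n).map (fun i => E i 2)).sum ≤ 14 : Bool) && (((bs n).map (fun i => E i 3)).sum ≤ 4 : Bool)

lemma sm_apply (n : ℕ) (q : Fin 4) : sm n q = ((bs n).map (fun i => E i q)).sum := by
  unfold sm
  rw [Finset.sum_apply, sum_bt]

/-- a valid mask with `c` bits -/
def Ok (c n : ℕ) : Prop := n < 2 ^ 35 ∧ (bt n).card = c ∧ sm n ≤ B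

lemma ok_of_okMask {c n : ℕ} (h : okMask c n = true) : Ok c n := by
  simp only [okMask, Bool.and_eq_true, Nat.blt_eq, beq_iff_eq, decide_eq_true_eq] at h
  obtain ⟨⟨⟨⟨⟨h1, h2⟩, h3⟩, h4⟩, h5⟩, h6⟩ := h
  refine ⟨h1, by rw [card_bt, h2], fun q => ?_⟩
  rw [sm_apply]
  fin_cases q
  · exact h3
  · exact h4
  · exact h5
  · exact h6

lemma R_add_sm {c n : ℕ} (h : Ok c n) : R n + sm n = B := tsub_add_cancel_of_le h.2.2

lemma R_tog_of_mem {c n i : ℕ} (h : Ok c n) (hi : i ∈ bt n) : R (n ^^^ 2 ^ i) = R n + E i := by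
  have h1 := sm_erase hi
  funext q
  have h2 := congrFun h1 q
  have h3 : sm n q ≤ B q := h.2.2 q
  simp only [Pi.add_apply] at h2
  simp only [R, Pi.sub_apply, Pi.add_apply]
  omega

lemma R_tog_of_notMem {c n i : ℕ} (h : Ok c n) (h35 : i < 35) (hi : i ∉ bt n) (hle : E i ≤ R n) :
    R (n ^^^ 2 ^ i) + E i = R n := by
  have h1 := sm_insert h35 hi
  funext q
  have h2 := congrFun h1 q
  have h3 : sm n q ≤ B q := h.2.2 q
  have h4 : E i q ≤ R n q := hle q
  simp only [Pi.add_apply] at h2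
  simp only [R, Pi.sub_apply, Pi.add_apply] at h4 ⊢
  omega

lemma nb_tog (n i : ℕ) (hi : i ∈ bt n) : nb (n ^^^ 2 ^ i) i = nb n i := by
  unfold nb
  rw [bt_erase hi]
  congr 1
  ext j
  simp only [Finset.mem_filter, Finset.mem_erase]
  constructor
  · rintro ⟨⟨_, h2⟩, h3⟩; exact ⟨h2, h3⟩
  · rintro ⟨h2, h3⟩; exact ⟨⟨fun h => by omega, h2⟩, h3⟩

section Main

variable {r : ℕ} (hr : 4 ≤ r + 1)

lemma E_B_sum : ∑ q, B q = 60 := by
  rw [Fin.sum_univ_four]; rfl

lemma sum_sm (n : ℕ) : ∑ q, sm n q = 4 * (bt n).card := by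
  unfold sm
  have h1 : ∀ q, (∑ i ∈ bt n, E i) q = ∑ i ∈ bt n, E i q := fun q => Finset.sum_apply _ _ _
  simp only [h1]
  rw [Finset.sum_comm]
  simp only [E_sum]
  rw [Finset.sum_const, smul_eq_mul, mul_comm]

lemma R_sum {c n : ℕ} (h : Ok c n) : ∑ q, R n q + 4 * c = 60 := by
  have h1 := R_add_sm h
  have h2 : ∑ q, (R n q + sm n q) = 60 := by
    rw [← E_B_sum]
    exact Finset.sum_congr rfl (fun q _ => congrFun h1 q)
  rw [Finset.sum_add_distrib, sum_sm, h.2.1] at h2
  exact h2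

/-- the basis element of the mask `n` -/
noncomputable def pt (c n : ℕ) (hc : c ≤ 15) (h : Ok c n) : Idx r 4 c 15 where
  T := St hr n
  a := emb r (R n)
  card := by rw [St_card, h.2.1]
  le := hc
  deg := by
    rw [emb_degree hr]
    have := R_sum h
    omega

/-- `y` is the basis element of the mask `n` -/
def IsPt {c : ℕ} (y : Idx r 4 c 15) (n : ℕ) : Prop := y.T = St hr n ∧ y.a = emb r (R n)

open Classical in
/-- indicator -/
noncomputable def ind {c : ℕ} (y : Idx r 4 c 15) (n : ℕ) : ℤ := if IsPt hr y n then 1 else 0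

lemma isPt_iff {c n : ℕ} (hc : c ≤ 15) (h : Ok c n) (y : Idx r 4 c 15) :
    IsPt hr y n ↔ y = pt hr c n hc h := by
  constructor
  · rintro ⟨h1, h2⟩; exact Idx.ext h1 h2
  · rintro rfl; exact ⟨rfl, rfl⟩

lemma sum_ind_mul {c n : ℕ} (hc : c ≤ 15) (h : Ok c n) (G : Idx r 4 c 15 → ℤ) :
    ∑ y, G y * ind hr y n = G (pt hr c n hc h) := by
  classical
  rw [Finset.sum_eq_single (pt hr c n hc h)]
  · unfold ind
    rw [if_pos ((isPt_iff hr hc h _).mpr rfl), mul_one]
  · intro y _ hy
    unfold ind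
    rw [if_neg (fun h1 => hy ((isPt_iff hr hc h _).mp h1)), mul_zero]
  · intro h1; exact absurd (Finset.mem_univ _) h1

lemma A_pt_right (n : ℕ) (h : Ok 14 n) (x : Idx r 4 13 15) :
    A r 4 13 15 x (pt hr 14 n (by norm_num) h) =
      ∑ i ∈ bt n, (-1) ^ nb n i * ind hr x (n ^^^ 2 ^ i) := by
  classical
  unfold A
  rw [← Finset.sum_subset (Finset.subset_univ (St hr n))]
  · unfold St
    rw [Finset.sum_image (io_injOn hr n)]
    refine Finset.sum_congr rfl (fun i hi => ?_)
    have h35 := (mem_bt.mp hi).1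
    change (if io hr i ∉ x.T ∧ insert (io hr i) x.T = St hr n ∧
      emb r (R n) + emb r (E i) = x.a then sg x.T (io hr i) else 0) = _
    have hiff : (io hr i ∉ x.T ∧ insert (io hr i) x.T = St hr n ∧
        emb r (R n) + emb r (E i) = x.a) ↔ IsPt hr x (n ^^^ 2 ^ i) := by
      unfold IsPt
      rw [St_erase hr hi, R_tog_of_mem h hi, emb_add]
      constructor
      · rintro ⟨h1, h2, h3⟩
        exact ⟨by rw [← h2, Finset.erase_insert h1], h3.symm⟩
      · rintro ⟨h1, h2⟩
        refine ⟨by rw [h1]; exact Finset.notMem_erase _ _, ?_, h2.symm⟩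
        rw [h1, Finset.insert_erase ((io_mem_St hr h35).mpr hi)]
    unfold ind
    by_cases hp : IsPt hr x (n ^^^ 2 ^ i)
    · rw [if_pos (hiff.mpr hp), if_pos hp, mul_one, hp.1, sg_St hr h35, nb_tog n i hi]
    · rw [if_neg (fun h1 => hp (hiff.mp h1)), if_neg hp, mul_zero]
  · intro v _ hv
    rw [if_neg]
    rintro ⟨_, h2, _⟩
    apply hv
    change insert v x.T = St hr n at h2
    rw [← h2]
    exact Finset.mem_insert_self _ _

/-- the bits that may be added to the mask `m` -/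
noncomputable def cob (m : ℕ) : Finset ℕ := by
  classical
  exact (range 35).filter (fun i => i ∉ bt m ∧ E i ≤ R m)

lemma mem_cob {m i : ℕ} : i ∈ cob m ↔ i < 35 ∧ i ∉ bt m ∧ E i ≤ R m := by
  classical
  unfold cob
  rw [Finset.mem_filter, Finset.mem_range]

lemma A_pt_left (m : ℕ) (h : Ok 13 m) (y : Idx r 4 14 15) :
    A r 4 13 15 (pt hr 13 m (by norm_num) h) y =
      ∑ i ∈ cob m, (-1) ^ nb m i * ind hr y (m ^^^ 2 ^ i) := by
  classical
  unfold A
  have hinj : Set.InjOn (io hr) (cob m : Set ℕ) := fun i hi j hj hij =>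
    io_inj hr (mem_cob.mp hi).1 (mem_cob.mp hj).1 hij
  rw [← Finset.sum_subset (Finset.subset_univ ((cob m).image (io hr)))]
  · rw [Finset.sum_image hinj]
    refine Finset.sum_congr rfl (fun i hi => ?_)
    obtain ⟨h35, hin, hle⟩ := mem_cob.mp hi
    change (if io hr i ∉ St hr m ∧ insert (io hr i) (St hr m) = y.T ∧
      y.a + emb r (E i) = emb r (R m) then sg (St hr m) (io hr i) else 0) = _
    have hiff : (io hr i ∉ St hr m ∧ insert (io hr i) (St hr m) = y.T ∧
        y.a + emb r (E i) = emb r (R m)) ↔ IsPt hr y (m ^^^ 2 ^ i) := by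
      unfold IsPt
      rw [St_insert hr h35 hin, ← R_tog_of_notMem h h35 hin hle, emb_add]
      constructor
      · rintro ⟨h1, h2, h3⟩
        exact ⟨h2.symm, add_right_cancel h3⟩
      · rintro ⟨h1, h2⟩
        exact ⟨fun h3 => hin ((io_mem_St hr h35).mp h3), h1.symm, by rw [h2]⟩
    unfold ind
    by_cases hp : IsPt hr y (m ^^^ 2 ^ i)
    · rw [if_pos (hiff.mpr hp), if_pos hp, mul_one, sg_St hr h35]
    · rw [if_neg (fun h1 => hp (hiff.mp h1)), if_neg hp, mul_zero]
  · intro v _ hv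
    rw [if_neg]
    rintro ⟨h1, h2, h3⟩
    apply hv
    change v ∉ St hr m at h1
    change y.a + v.exp = emb r (R m) at h3
    obtain ⟨b, hb, hvb⟩ := le_emb hr (R m) v.exp (by rw [← h3]; exact le_add_self)
    have hsum : ∑ q, b q = 4 := by rw [← emb_degree hr, ← hvb, v.deg]
    obtain ⟨i, hi, rfl⟩ := E_surj b hsum
    have hvi : v = io hr i := Mon.ext hvb
    subst hvi
    refine Finset.mem_image.mpr ⟨i, mem_cob.mpr ⟨hi, fun h4 => h1 ((io_mem_St hr hi).mpr h4), hb⟩, rfl⟩

/-- the chain of a list of masks -/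
noncomputable def chn (c : ℕ) (W : List ℕ) (y : Idx r 4 c 15) : ℤ := (W.map (ind hr y)).sum

lemma sum_chn (c : ℕ) (hc : c ≤ 15) (W : List ℕ) (hW : ∀ n ∈ W, Ok c n) (G : Idx r 4 c 15 → ℤ)
    (H : ℕ → ℤ) (hGH : ∀ n (h : Ok c n), n ∈ W → G (pt hr c n hc h) = H n) :
    ∑ y, G y * chn hr c W y = (W.map H).sum := by
  induction W with
  | nil => simp [chn]
  | cons n W ih =>
    have h1 : ∀ y, G y * chn hr c (n :: W) y = G y * ind hr y n + G y * chn hr c W y := by
      intro y
      unfold chn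
      rw [List.map_cons, List.sum_cons, mul_add]
    rw [Finset.sum_congr rfl (fun y _ => h1 y), Finset.sum_add_distrib,
      ih (fun n hn => hW n (List.mem_cons_of_mem _ hn))
        (fun n h hn => hGH n h (List.mem_cons_of_mem _ hn)),
      sum_ind_mul hr hc (hW n List.mem_cons_self), List.map_cons, List.sum_cons,
      hGH n (hW n List.mem_cons_self) List.mem_cons_self]

/-- the list of the facets -/
def facets (W : List ℕ) : List ℕ := W.flatMap (fun n => (bs n).map (fun i => n ^^^ 2 ^ i))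

/-- the bits that may be added, as a list -/
def cbs (m : ℕ) : List ℕ := (List.range 35).filter (fun i => !(m.testBit i) &&
  ((((bs m).map (fun i => E i 0)).sum + E i 0 ≤ 22 : Bool) &&
    (((bs m).map (fun i => E i 1)).sum + E i 1 ≤ 20 : Bool) &&
    (((bs m).map (fun i => E i 2)).sum + E i 2 ≤ 14 : Bool) &&
    (((bs m).map (fun i => E i 3)).sum + E i 3 ≤ 4 : Bool)))

/-- the list of the cofaces -/
def cofaces (F : List ℕ) : List ℕ := F.flatMap (fun m => (cbs m).map (fun i => m ^^^ 2 ^ i))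

lemma mem_cbs {m i : ℕ} (h : Ok 13 m) : i ∈ cbs m ↔ i ∈ cob m := by
  rw [cbs, List.mem_filter, List.mem_range, mem_cob, mem_bt]
  simp only [Bool.and_eq_true, Bool.not_eq_true', decide_eq_true_eq, ← sm_apply]
  have hle : E i ≤ R m ↔ (((sm m 0 + E i 0 ≤ 22 ∧ sm m 1 + E i 1 ≤ 20) ∧ sm m 2 + E i 2 ≤ 14) ∧
      sm m 3 + E i 3 ≤ 4) := by
    have h0 : sm m 0 ≤ 22 := h.2.2 0
    have h1 : sm m 1 ≤ 20 := h.2.2 1
    have h2 : sm m 2 ≤ 14 := h.2.2 2
    have h3 : sm m 3 ≤ 4 := h.2.2 3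
    constructor
    · intro hle
      have e0 : E i 0 ≤ 22 - sm m 0 := hle 0
      have e1 : E i 1 ≤ 20 - sm m 1 := hle 1
      have e2 : E i 2 ≤ 14 - sm m 2 := hle 2
      have e3 : E i 3 ≤ 4 - sm m 3 := hle 3
      omega
    · rintro ⟨⟨⟨e0, e1⟩, e2⟩, e3⟩ q
      fin_cases q
      · change E i 0 ≤ 22 - sm m 0
        omega
      · change E i 1 ≤ 20 - sm m 1
        omega
      · change E i 2 ≤ 14 - sm m 2
        omega
      · change E i 3 ≤ 4 - sm m 3
        omega
  rw [hle]
  constructor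
  · rintro ⟨h1, h2, h3⟩
    exact ⟨h1, fun h4 => by rw [h4.2] at h2; exact absurd h2 (by simp), h3⟩
  · rintro ⟨h1, h2, h3⟩
    refine ⟨h1, ?_, h3⟩
    by_contra h4
    exact h2 ⟨h1, by simpa using h4⟩

lemma sum_cob {M : Type*} [AddCommMonoid M] (m : ℕ) (h : Ok 13 m) (f : ℕ → M) :
    ∑ i ∈ cob m, f i = ((cbs m).map f).sum := by
  have h1 : (cbs m).toFinset = cob m := by
    ext i; rw [List.mem_toFinset, mem_cbs h]
  have hnd : (cbs m).Nodup := List.Nodup.filter _ List.nodup_range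
  rw [← h1, List.sum_toFinset _ hnd]

lemma sum_flatMap_map (W : List ℕ) (t : ℕ → List ℕ) (u : ℕ → ℕ → ℕ) (g : ℕ → ZMod 2) :
    ((W.flatMap (fun n => (t n).map (u n))).map g).sum =
      (W.map (fun n => ((t n).map (fun i => g (u n i))).sum)).sum := by
  induction W with
  | nil => simp
  | cons n W ih =>
    rw [List.flatMap_cons, List.map_append, List.sum_append, ih, List.map_cons, List.sum_cons,
      List.map_map]
    rfl

lemma cast_list_sum (L : List ℕ) (f : ℕ → ℤ) :
    (((L.map f).sum : ℤ) : ZMod 2) = (L.map (fun i => ((f i : ℤ) : ZMod 2))).sum := by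
  induction L with
  | nil => simp
  | cons a L ih => simp only [List.map_cons, List.sum_cons, Int.cast_add, ih]

lemma neg_one_pow_zmod2 (e : ℕ) (z : ℤ) : ((((-1) ^ e * z : ℤ)) : ZMod 2) = (z : ZMod 2) := by
  have h : ((-1 : ZMod 2)) = 1 := by decide
  rw [Int.cast_mul, Int.cast_pow, Int.cast_neg, Int.cast_one, h, one_pow, one_mul]

lemma even_chn (W : List ℕ) (hW : ∀ n ∈ W, Ok 14 n) (hc : evenCheck 35 (facets W) = true)
    (x : Idx r 4 13 15) : (2 : ℤ) ∣ ∑ y, A r 4 13 15 x y * chn hr 14 W y := by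
  rw [sum_chn hr 14 (by norm_num) W hW (fun y => A r 4 13 15 x y)
    (fun n => ((bs n).map (fun i => (-1) ^ nb n i * ind hr x (n ^^^ 2 ^ i))).sum)
    (fun n h _ => by rw [A_pt_right hr n h x, sum_bt])]
  have h1 := evenCheck_sum 35 _ hc (fun m => ((ind hr x m : ℤ) : ZMod 2))
  rw [facets, sum_flatMap_map] at h1
  refine (ZMod.intCast_zmod_eq_zero_iff_dvd _ 2).mp ?_
  rw [cast_list_sum, ← h1]
  refine congrArg List.sum (List.map_congr_left (fun n _ => ?_))
  rw [cast_list_sum]
  exact congrArg List.sum (List.map_congr_left (fun i _ => neg_one_pow_zmod2 _ _))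

lemma even_cochn (F : List ℕ) (hF : ∀ m ∈ F, Ok 13 m) (hc : evenCheck 35 (cofaces F) = true)
    (y : Idx r 4 14 15) : (2 : ℤ) ∣ ∑ x, chn hr 13 F x * A r 4 13 15 x y := by
  have h0 : ∑ x, chn hr 13 F x * A r 4 13 15 x y = ∑ x, A r 4 13 15 x y * chn hr 13 F x :=
    Finset.sum_congr rfl (fun x _ => mul_comm _ _)
  rw [h0, sum_chn hr 13 (by norm_num) F hF (fun x => A r 4 13 15 x y)
    (fun m => ((cbs m).map (fun i => (-1) ^ nb m i * ind hr y (m ^^^ 2 ^ i))).sum)
    (fun m h _ => by rw [A_pt_left hr m h y, sum_cob m h])]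
  have h1 := evenCheck_sum 35 _ hc (fun m => ((ind hr y m : ℤ) : ZMod 2))
  rw [cofaces, sum_flatMap_map] at h1
  refine (ZMod.intCast_zmod_eq_zero_iff_dvd _ 2).mp ?_
  rw [cast_list_sum, ← h1]
  refine congrArg List.sum (List.map_congr_left (fun n _ => ?_))
  rw [cast_list_sum]
  exact congrArg List.sum (List.map_congr_left (fun i _ => neg_one_pow_zmod2 _ _))

/-- number of bits of `n` below `i` -/
def nbl (n i : ℕ) : ℕ := ((bs n).filter (fun j => Nat.blt j i)).length

lemma nbl_eq (n i : ℕ) : nbl n i = nb n i := by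
  unfold nbl nb
  have h1 : ((bs n).filter (fun j => Nat.blt j i)).toFinset = (bt n).filter (fun j => j < i) := by
    ext j
    rw [List.mem_toFinset, List.mem_filter, mem_bs, Finset.mem_filter, Nat.blt_eq]
  rw [← h1, List.toFinset_card_of_nodup (List.Nodup.filter _ (bs_nodup n))]

/-- the terms of the pairing -/
def term (F : List ℕ) (n i : ℕ) : ℤ :=
  if (n ^^^ 2 ^ i) &&& 17179885585 = 0 then
    (match F.count (n ^^^ 2 ^ i) with
      | 0 => 0
      | c + 1 => (-1) ^ nbl n i * ((c + 1 : ℕ) : ℤ))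
  else 0

/-- the pairing -/
def pairing (W F : List ℕ) : ℤ := (W.map (fun n => ((bs n).map (term F n)).sum)).sum

lemma term_eq (F : List ℕ) (hF : ∀ m ∈ F, m &&& 17179885585 = 0) (n i : ℕ) :
    term F n i = (-1) ^ nb n i * ((F.count (n ^^^ 2 ^ i) : ℕ) : ℤ) := by
  unfold term
  by_cases h : (n ^^^ 2 ^ i) &&& 17179885585 = 0
  · rw [if_pos h, nbl_eq]
    cases hc : F.count (n ^^^ 2 ^ i) with
    | zero => simp
    | succ c => rfl
  · rw [if_neg h]
    have h1 : F.count (n ^^^ 2 ^ i) = 0 := List.count_eq_zero.mpr (fun h2 => h (hF _ h2))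
    rw [h1]; simp

lemma count_eq_sum (F : List ℕ) (z : ℕ) :
    ((F.count z : ℕ) : ℤ) = (F.map (fun m => if m = z then (1 : ℤ) else 0)).sum := by
  induction F with
  | nil => simp
  | cons m F ih =>
    rw [List.count_cons, List.map_cons, List.sum_cons, Nat.cast_add, ih]
    by_cases h : m = z
    · simp [h, add_comm]
    · simp [h]

lemma sum_swap (W F : List ℕ) (f : ℕ → ℕ → ℤ) :
    (W.map (fun n => (F.map (fun m => f n m)).sum)).sum =
      (F.map (fun m => (W.map (fun n => f n m)).sum)).sum := by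
  induction W with
  | nil => simp
  | cons n W ih =>
    simp only [List.map_cons, List.sum_cons]
    rw [ih, ← List.sum_map_add]

lemma ind_pt (m : ℕ) (h : Ok 13 m) (n : ℕ) (hn : n < 2 ^ 35) :
    ind hr (pt hr 13 m (by norm_num) h) n = if m = n then 1 else 0 := by
  classical
  unfold ind
  by_cases h1 : m = n
  · subst h1
    rw [if_pos ((isPt_iff hr (by norm_num) h _).mpr rfl), if_pos rfl]
  · rw [if_neg h1, if_neg]
    intro h2
    exact h1 (St_inj hr h.1 hn h2.1)

lemma pairing_eq (W F : List ℕ) (hW : ∀ n ∈ W, Ok 14 n) (hF : ∀ m ∈ F, Ok 13 m)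
    (hP : ∀ m ∈ F, m &&& 17179885585 = 0) :
    ∑ x, chn hr 13 F x * ∑ y, A r 4 13 15 x y * chn hr 14 W y = pairing W F := by
  have h0 : ∑ x, chn hr 13 F x * ∑ y, A r 4 13 15 x y * chn hr 14 W y =
      ∑ x, (∑ y, A r 4 13 15 x y * chn hr 14 W y) * chn hr 13 F x :=
    Finset.sum_congr rfl (fun x _ => mul_comm _ _)
  rw [h0, sum_chn hr 13 (by norm_num) F hF _
    (fun m => (W.map (fun n => ((bs n).map
      (fun i => (-1) ^ nb n i * (if m = n ^^^ 2 ^ i then (1 : ℤ) else 0))).sum)).sum)]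
  · rw [← sum_swap]
    unfold pairing
    refine congrArg List.sum (List.map_congr_left (fun n _ => ?_))
    rw [← sum_swap]
    refine congrArg List.sum (List.map_congr_left (fun i _ => ?_))
    rw [term_eq F hP, count_eq_sum, List.sum_map_mul_left]
  · intro m h _
    rw [sum_chn hr 14 (by norm_num) W hW _
      (fun n => ((bs n).map (fun i => (-1) ^ nb n i *
        (if m = n ^^^ 2 ^ i then (1 : ℤ) else 0))).sum)]
    intro n hn _
    rw [A_pt_right hr n hn, sum_bt]
    refine congrArg List.sum (List.map_congr_left (fun i hi => ?_))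
    rw [ind_pt hr m h _ (tog_lt hn.1 (mem_bt.mp (mem_bs.mp hi)).1)]

include hr in
theorem rank_lt_of_cert (W F : List ℕ) (hW : ∀ n ∈ W, okMask 14 n = true)
    (hF : ∀ m ∈ F, okMask 13 m = true) (hP : ∀ m ∈ F, m &&& 17179885585 = 0)
    (h1 : evenCheck 35 (facets W) = true) (h2 : evenCheck 35 (cofaces F) = true)
    (h3 : pairing W F % 4 = 2) :
    (red (ZMod 2) (A r 4 13 15)).rank < (red ℚ (A r 4 13 15)).rank := by
  haveI : Fact (Nat.Prime 2) := ⟨Nat.prime_two⟩
  have hW' : ∀ n ∈ W, Ok 14 n := fun n hn => ok_of_okMask (hW n hn)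
  have hF' : ∀ m ∈ F, Ok 13 m := fun m hm => ok_of_okMask (hF m hm)
  refine rank_lt 2 (A r 4 13 15) (chn hr 14 W) (chn hr 13 F) ?_ ?_ ?_
  · exact even_chn hr W hW' h1
  · exact even_cochn hr F hF' h2
  · rw [pairing_eq hr W F hW' hF' hP]
    intro h4
    have h5 : (4 : ℤ) ∣ pairing W F := by simpa using h4
    omega

end Main

end Pool.Agent.Q194.VT
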