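import Mathlib

/-!
Betti numbers of the Veronese rings `R_{r,d}` over the polynomial ring with one variable for each
monomial of degree `d` in `y_0, …, y_r`, through the Koszul complex of the variables.
-/

set_option autoImplicit false

namespace Pool.Agent.Q194.VT

open Finset MvPolynomial

/-- The monomials of degree `d` in `y_0, …, y_r`, as exponent vectors.  They index the variables
`x_m` of `S`. -/
@[ext] structure Mon (r d : ℕ) where
  /-- the exponent vector -/
  exp : Fin (r + 1) →₀ ℕ
  deg : exp.degree = d

variable {r d : ℕ}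

/-- the number `∑ a_i (d+1)^i` attached to a monomial `a`; it is only used to order the monomials -/
def code (v : Mon r d) : ℕ := ∑ i : Fin (r + 1), v.exp i * (d + 1) ^ (i : ℕ)

lemma digits_inj (b : ℕ) : ∀ (n : ℕ) (f g : Fin n → ℕ), (∀ i, f i < b) → (∀ i, g i < b) →
    ∑ i, f i * b ^ (i : ℕ) = ∑ i, g i * b ^ (i : ℕ) → f = g := by
  intro n
  induction n with
  | zero => intro f g _ _ _; exact Subsingleton.elim _ _
  | succ n ih =>
    intro f g hf hg h
    have e : ∀ f : Fin (n + 1) → ℕ, ∑ i, f i * b ^ (i : ℕ) =
        f 0 + b * ∑ i : Fin n, f i.succ * b ^ (i : ℕ) := by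
      intro f
      rw [Fin.sum_univ_succ, Finset.mul_sum]
      simp only [Fin.val_zero, pow_zero, mul_one, Fin.val_succ, pow_succ]
      congr 1
      exact Finset.sum_congr rfl (fun i _ => by ring)
    rw [e f, e g] at h
    have h0 : f 0 = g 0 := by
      have h1 := congrArg (· % b) h
      simpa [Nat.add_mul_mod_self_left, Nat.mod_eq_of_lt (hf 0), Nat.mod_eq_of_lt (hg 0)] using h1
    have hb : 0 < b := lt_of_le_of_lt (Nat.zero_le _) (hf 0)
    have h2 := ih (fun i => f i.succ) (fun i => g i.succ) (fun i => hf _) (fun i => hg _) (by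
      have h3 : b * ∑ i : Fin n, f i.succ * b ^ (i : ℕ) =
          b * ∑ i : Fin n, g i.succ * b ^ (i : ℕ) := by omega
      exact Nat.eq_of_mul_eq_mul_left hb h3)
    funext i
    refine Fin.cases h0 (fun i => ?_) i
    exact congrFun h2 i

lemma Mon.le_deg (v : Mon r d) (i : Fin (r + 1)) : v.exp i ≤ d := by
  have h := v.deg
  have h1 : v.exp i ≤ v.exp.degree := Finsupp.le_degree i v.exp
  omega

lemma code_injective : Function.Injective (code : Mon r d → ℕ) := by
  intro a b h
  have h1 := digits_inj (d + 1) (r + 1) (fun i => a.exp i) (fun i => b.exp i)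
    (fun i => Nat.lt_succ_of_le (a.le_deg i)) (fun i => Nat.lt_succ_of_le (b.le_deg i)) h
  exact Mon.ext (Finsupp.ext (fun i => congrFun h1 i))

noncomputable instance : LinearOrder (Mon r d) := LinearOrder.lift' code code_injective

instance : Finite (Mon r d) := by
  refine Finite.of_injective (fun v : Mon r d => (fun i => (⟨v.exp i, Nat.lt_succ_of_le (v.le_deg i)⟩ :
    Fin (d + 1)))) ?_
  intro a b h
  refine Mon.ext (Finsupp.ext (fun i => ?_))
  have := congrFun h i
  simpa using this

noncomputable instance : Fintype (Mon r d) := Fintype.ofFinite _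

/-- the sign `(-1)^{#{u ∈ T : u < v}}` -/
noncomputable def sg (T : Finset (Mon r d)) (v : Mon r d) : ℤ :=
  (-1) ^ (T.filter (fun u => u < v)).card

variable (k : Type*) [Field k]

/-- Families `(f_T)` of polynomials indexed by the sets `T` of variables of `S`; such a family
stands for the element `∑_T e_T ⊗ f_T` of `∧ (k^{Mon}) ⊗ k[y_0, …, y_r]`. -/
abbrev Fam (r d : ℕ) : Type _ := Finset (Mon r d) → MvPolynomial (Fin (r + 1)) k

/-- The component `∑_{v ∉ T} ± y^v f_{T ∪ {v}}` of the Koszul differential: the variable `x_v` acts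
as the monomial `y^v`. -/
noncomputable def kosT (f : Fam k r d) (T : Finset (Mon r d)) : MvPolynomial (Fin (r + 1)) k :=
  ∑ v ∈ Tᶜ, ((sg T v : ℤ) : k) • (monomial v.exp (1 : k) * f (insert v T))

/-- The Koszul differential of the variables of `S`, `(D f)_T = ∑_{v ∉ T} ± y^v f_{T ∪ {v}}`. -/
noncomputable def kosD (r d : ℕ) : Fam k r d →ₗ[k] Fam k r d where
  toFun := kosT k
  map_add' f g := by
    funext T
    simp only [kosT, Pi.add_apply, mul_add, smul_add, Finset.sum_add_distrib]
  map_smul' c f := by
    funext T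
    simp only [kosT, Pi.smul_apply, RingHom.id_apply, Finset.smul_sum, mul_smul_comm]
    exact Finset.sum_congr rfl (fun v _ => smul_comm _ _ _)

/-- The part `K_{i,j}` of homological degree `i` and internal degree `j` of the Koszul complex
`∧ (k^{Mon}) ⊗ R_{r,d}`: families `(f_T)`, zero unless `T` has `i` elements, with
`f_T ∈ (R_{r,d})_{j-i} = k[y]_{(j-i)d}`. -/
def chain (r d i j : ℕ) : Submodule k (Fam k r d) where
  carrier := {f | ∀ T, (T.card ≠ i ∨ j < i → f T = 0) ∧ (f T).IsHomogeneous ((j - i) * d)}
  zero_mem' := fun T => ⟨fun _ => rfl, isHomogeneous_zero _ _ _⟩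
  add_mem' := by
    intro f g hf hg T
    refine ⟨fun h => ?_, (hf T).2.add (hg T).2⟩
    rw [Pi.add_apply, (hf T).1 h, (hg T).1 h, add_zero]
  smul_mem' := by
    intro c f hf T
    refine ⟨fun h => ?_, ?_⟩
    · rw [Pi.smul_apply, (hf T).1 h, smul_zero]
    · rw [Pi.smul_apply, smul_eq_C_mul]
      simpa using (isHomogeneous_C _ c).mul (hf T).2

/-- the cycles in `K_{i,j}` -/
noncomputable def cycles (r d i j : ℕ) : Submodule k (Fam k r d) :=
  LinearMap.ker (kosD k r d) ⊓ chain k r d i j

/-- the boundaries in `K_{i,j}`: the image of `K_{i+1,j}` -/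
noncomputable def boundaries (r d i j : ℕ) : Submodule k (Fam k r d) :=
  (chain k r d (i + 1) j).map (kosD k r d)

/-- The graded Betti number `β_{i,j} = dim_k Tor_i^S(R_{r,d}, k)_j`, as the dimension (cycles minus
boundaries) of the homology of the Koszul complex of the variables of `S` on `R_{r,d}` in
homological degree `i` and internal degree `j`. -/
noncomputable def betti (r d i j : ℕ) : ℕ :=
  Module.finrank k (cycles k r d i j) - Module.finrank k (boundaries k r d i j)

/-- The Betti table of the `d`-uple embedding of `ℙ^r` depends on the characteristic. -/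
def DependsOnChar (r d : ℕ) : Prop :=
  ∃ (k k' : Type) (_ : Field k) (_ : Field k'), ringChar k ≠ ringChar k' ∧
    ∃ i j, betti k r d i j ≠ betti k' r d i j

/-- `r_min`: the least `r ≥ 1` such that for some `d ≥ 1` the Betti table of the `d`-uple embedding
of `ℙ^r` depends on the characteristic. -/
noncomputable def rMin : ℕ := sInf {r | 1 ≤ r ∧ ∃ d, 1 ≤ d ∧ DependsOnChar r d}

end Pool.Agent.Q194.VT
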