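import Pool.Agent.Q194.VT.Kos

/-!
Monomials of degree four in the first four variables, numbered `0, …, 34`, and sets of such
monomials as bit masks.
-/

set_option autoImplicit false

namespace Pool.Agent.Q194.VT

open Finset MvPolynomial

/-- the numbers `a_0 + 5 a_1 + 25 a_2 + 125 a_3` of the monomials of degree four in four
variables, in increasing order -/
def codes : List ℕ :=
  [4, 8, 12, 16, 20, 28, 32, 36, 40, 52, 56, 60, 76, 80, 100, 128, 132, 136, 140, 152, 156, 160,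
  176, 180, 200, 252, 256, 260, 276, 280, 300, 376, 380, 400, 500]

/-- the exponent vector of the `i`-th monomial of degree four in four variables -/
def E (i : ℕ) (q : Fin 4) : ℕ := (codes.getD i 4 / 5 ^ (q : ℕ)) % 5

lemma E_sum_lt : ∀ i < 35, E i 0 + E i 1 + E i 2 + E i 3 = 4 := by decide

lemma E_ge (i : ℕ) (hi : 35 ≤ i) (q : Fin 4) : E i q = (4 / 5 ^ (q : ℕ)) % 5 := by
  unfold E
  rw [List.getD_eq_default]
  exact hi

lemma E_sum (i : ℕ) : ∑ q, E i q = 4 := by
  rw [Fin.sum_univ_four]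
  by_cases h : i < 35
  · exact E_sum_lt i h
  · rw [E_ge i (not_lt.mp h), E_ge i (not_lt.mp h), E_ge i (not_lt.mp h), E_ge i (not_lt.mp h)]
    rfl

lemma E_mono : ∀ i < 35, ∀ j < 35, i < j →
    E i 0 + E i 1 * 5 + E i 2 * 25 + E i 3 * 125 < E j 0 + E j 1 * 5 + E j 2 * 25 + E j 3 * 125 := by
  decide

lemma E_all' : ((List.range 5).all fun a => (List.range 5).all fun b => (List.range 5).all fun c =>
    (List.range 5).all fun e => (a + b + c + e != 4) || (List.range 35).any fun i =>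
      (E i 0 == a) && (E i 1 == b) && (E i 2 == c) && (E i 3 == e)) = true := by
  decide +kernel

lemma E_all (a : ℕ) (ha : a < 5) (b : ℕ) (hb : b < 5) (c : ℕ) (hc : c < 5) (e : ℕ) (he : e < 5)
    (h : a + b + c + e = 4) : ∃ i < 35, E i 0 = a ∧ E i 1 = b ∧ E i 2 = c ∧ E i 3 = e := by
  have h1 := List.all_eq_true.mp E_all' a (List.mem_range.mpr ha)
  have h2 := List.all_eq_true.mp h1 b (List.mem_range.mpr hb)
  have h3 := List.all_eq_true.mp h2 c (List.mem_range.mpr hc)
  have h4 := List.all_eq_true.mp h3 e (List.mem_range.mpr he)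
  simp only [Bool.or_eq_true, bne_iff_ne, ne_eq, h, not_true_eq_false, false_or,
    List.any_eq_true, List.mem_range, Bool.and_eq_true, beq_iff_eq] at h4
  obtain ⟨i, hi, ⟨⟨h5, h6⟩, h7⟩, h8⟩ := h4
  exact ⟨i, hi, h5, h6, h7, h8⟩

lemma E_surj (b : Fin 4 → ℕ) (hb : ∑ q, b q = 4) : ∃ i < 35, E i = b := by
  rw [Fin.sum_univ_four] at hb
  obtain ⟨i, hi, h0, h1, h2, h3⟩ := E_all (b 0) (by omega) (b 1) (by omega) (b 2) (by omega)
    (b 3) (by omega) hb
  refine ⟨i, hi, ?_⟩
  funext q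
  fin_cases q
  · exact h0
  · exact h1
  · exact h2
  · exact h3

section Embed

variable {r : ℕ}

/-- a vector of exponents in the first four variables as a vector of exponents in
`y_0, …, y_r` -/
noncomputable def emb (r : ℕ) (a : Fin 4 → ℕ) : Fin (r + 1) →₀ ℕ :=
  Finsupp.equivFunOnFinite.symm (fun i => if h : i.val < 4 then a ⟨i.val, h⟩ else 0)

lemma emb_apply (a : Fin 4 → ℕ) (i : Fin (r + 1)) :
    emb r a i = if h : i.val < 4 then a ⟨i.val, h⟩ else 0 := rfl

lemma emb_add (a b : Fin 4 → ℕ) : emb r (a + b) = emb r a + emb r b := by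
  ext i
  rw [Finsupp.add_apply, emb_apply, emb_apply, emb_apply]
  split_ifs <;> simp

lemma emb_castLE (hr : 4 ≤ r + 1) (a : Fin 4 → ℕ) (q : Fin 4) :
    emb r a (Fin.castLE hr q) = a q := by
  have h : (Fin.castLE hr q).val < 4 := q.isLt
  rw [emb_apply, dif_pos h]
  rfl

lemma emb_inj (hr : 4 ≤ r + 1) {a b : Fin 4 → ℕ} (h : emb r a = emb r b) : a = b := by
  funext q
  rw [← emb_castLE hr a q, ← emb_castLE hr b q, h]

lemma emb_sum (hr : 4 ≤ r + 1) (a : Fin 4 → ℕ) (c : ℕ → ℕ) :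
    ∑ i : Fin (r + 1), emb r a i * c i = ∑ q : Fin 4, a q * c q := by
  have h1 : ∑ q : Fin 4, a q * c q =
      ∑ i ∈ (univ : Finset (Fin 4)).map (Fin.castLEEmb hr), emb r a i * c i := by
    rw [Finset.sum_map]
    exact Finset.sum_congr rfl (fun q _ => by
      change a q * c q = emb r a (Fin.castLE hr q) * c q
      rw [emb_castLE])
  rw [h1]
  refine (Finset.sum_subset (Finset.subset_univ _) (fun i _ hi => ?_)).symm
  rw [emb_apply, dif_neg, zero_mul]
  intro h
  exact hi (Finset.mem_map.mpr ⟨⟨i.val, h⟩, Finset.mem_univ _, rfl⟩)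

lemma emb_degree (hr : 4 ≤ r + 1) (a : Fin 4 → ℕ) : (emb r a).degree = ∑ q, a q := by
  rw [Finsupp.degree_eq_sum]
  have := emb_sum hr a (fun _ => 1)
  simpa using this

lemma le_emb (hr : 4 ≤ r + 1) (a : Fin 4 → ℕ) (v : Fin (r + 1) →₀ ℕ) (h : v ≤ emb r a) :
    ∃ b : Fin 4 → ℕ, b ≤ a ∧ v = emb r b := by
  refine ⟨fun q => v (Fin.castLE hr q), fun q => ?_, ?_⟩
  · have := h (Fin.castLE hr q)
    rwa [emb_castLE] at this
  · ext i
    rw [emb_apply]
    split_ifs with h1
    · rfl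
    · have := h i
      rw [emb_apply, dif_neg h1] at this
      omega

/-- the `i`-th monomial of degree four in the first four variables -/
noncomputable def io (hr : 4 ≤ r + 1) (i : ℕ) : Mon r 4 := ⟨emb r (E i), by
  rw [emb_degree hr, E_sum]⟩

lemma code_io (hr : 4 ≤ r + 1) (i : ℕ) :
    code (io hr i) = E i 0 + E i 1 * 5 + E i 2 * 25 + E i 3 * 125 := by
  have h := emb_sum hr (E i) (fun q => 5 ^ q)
  rw [Fin.sum_univ_four] at h
  unfold code
  change ∑ x : Fin (r + 1), emb r (E i) x * 5 ^ (x : ℕ) = _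
  rw [h]
  norm_num

lemma io_lt (hr : 4 ≤ r + 1) {i j : ℕ} (hi : i < 35) (hj : j < 35) : io hr i < io hr j ↔ i < j := by
  have key : ∀ i < 35, ∀ j < 35, i < j → io hr i < io hr j := by
    intro i hi j hj h
    change code (io hr i) < code (io hr j)
    rw [code_io, code_io]
    exact E_mono i hi j hj h
  constructor
  · intro h
    by_contra h1
    rcases lt_or_eq_of_le (not_lt.mp h1) with h2 | h2
    · exact lt_asymm h (key j hj i hi h2)
    · subst h2; exact lt_irrefl _ h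
  · exact key i hi j hj

lemma io_inj (hr : 4 ≤ r + 1) {i j : ℕ} (hi : i < 35) (hj : j < 35) (h : io hr i = io hr j) :
    i = j := by
  rcases lt_trichotomy i j with h1 | h1 | h1
  · exact absurd h (ne_of_lt ((io_lt hr hi hj).mpr h1))
  · exact h1
  · exact absurd h.symm (ne_of_lt ((io_lt hr hj hi).mpr h1))

end Embed

/-- the set of bits of `n` -/
def bt (n : ℕ) : Finset ℕ := (range 35).filter (fun i => n.testBit i = true)

lemma mem_bt {n i : ℕ} : i ∈ bt n ↔ i < 35 ∧ n.testBit i = true := by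
  simp [bt]

lemma testBit_tog (n i j : ℕ) : (n ^^^ 2 ^ i).testBit j = (n.testBit j ^^ decide (i = j)) := by
  rw [Nat.testBit_xor, Nat.testBit_two_pow]

lemma bt_erase {n i : ℕ} (hi : i ∈ bt n) : bt (n ^^^ 2 ^ i) = (bt n).erase i := by
  ext j
  have h1 := (mem_bt.mp hi).2
  rw [mem_bt, Finset.mem_erase, mem_bt, testBit_tog]
  by_cases h : i = j
  · subst h; simp [h1]
  · simp [h, Ne.symm h]

lemma bt_insert {n i : ℕ} (h35 : i < 35) (hi : i ∉ bt n) : bt (n ^^^ 2 ^ i) = insert i (bt n) := by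
  ext j
  have h1 : n.testBit i = false := by
    by_contra h; exact hi (mem_bt.mpr ⟨h35, by simpa using h⟩)
  rw [mem_bt, Finset.mem_insert, mem_bt, testBit_tog]
  by_cases h : i = j
  · subst h; simp [h1, h35]
  · simp [h, Ne.symm h]

lemma bt_inj {m n : ℕ} (hm : m < 2 ^ 35) (hn : n < 2 ^ 35) (h : bt m = bt n) : m = n := by
  refine Nat.eq_of_testBit_eq (fun i => ?_)
  by_cases hi : i < 35
  · have h1 : i ∈ bt m ↔ i ∈ bt n := by rw [h]
    rw [mem_bt, mem_bt] at h1
    have h2 : m.testBit i = true ↔ n.testBit i = true := by tauto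
    exact Bool.eq_iff_iff.mpr h2
  · have h3 : 2 ^ 35 ≤ 2 ^ i := Nat.pow_le_pow_right (by norm_num) (not_lt.mp hi)
    rw [Nat.testBit_lt_two_pow (lt_of_lt_of_le hm h3), Nat.testBit_lt_two_pow (lt_of_lt_of_le hn h3)]

lemma tog_lt {n i : ℕ} (hn : n < 2 ^ 35) (hi : i < 35) : n ^^^ 2 ^ i < 2 ^ 35 :=
  Nat.xor_lt_two_pow hn (Nat.pow_lt_pow_right (by norm_num) hi)

lemma tog_tog (n i : ℕ) : (n ^^^ 2 ^ i) ^^^ 2 ^ i = n := by
  rw [Nat.xor_assoc, Nat.xor_self, Nat.xor_zero]

/-- the sum of the exponents of the monomials in the set with mask `n` -/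
def sm (n : ℕ) : Fin 4 → ℕ := ∑ i ∈ bt n, E i

lemma sm_erase {n i : ℕ} (hi : i ∈ bt n) : sm (n ^^^ 2 ^ i) + E i = sm n := by
  unfold sm
  rw [bt_erase hi, Finset.sum_erase_add _ _ hi]

lemma sm_insert {n i : ℕ} (h35 : i < 35) (hi : i ∉ bt n) : sm (n ^^^ 2 ^ i) = sm n + E i := by
  unfold sm
  rw [bt_insert h35 hi, Finset.sum_insert hi, add_comm]

section SetOf

variable {r : ℕ} (hr : 4 ≤ r + 1)

/-- the set of monomials with mask `n` -/
noncomputable def St (n : ℕ) : Finset (Mon r 4) := (bt n).image (io hr)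

lemma io_injOn (n : ℕ) : Set.InjOn (io hr) (bt n : Set ℕ) := fun _ hi _ hj h =>
  io_inj hr (mem_bt.mp hi).1 (mem_bt.mp hj).1 h

lemma io_mem_St {n i : ℕ} (hi : i < 35) : io hr i ∈ St hr n ↔ i ∈ bt n := by
  unfold St
  rw [Finset.mem_image]
  constructor
  · rintro ⟨j, hj, h⟩
    rwa [← io_inj hr (mem_bt.mp hj).1 hi h]
  · intro h; exact ⟨i, h, rfl⟩

lemma St_inj {m n : ℕ} (hm : m < 2 ^ 35) (hn : n < 2 ^ 35) (h : St hr m = St hr n) : m = n := by
  refine bt_inj hm hn ?_
  ext i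
  by_cases hi : i < 35
  · rw [← io_mem_St hr hi, h, io_mem_St hr hi]
  · constructor
    · intro h1; exact absurd (mem_bt.mp h1).1 hi
    · intro h1; exact absurd (mem_bt.mp h1).1 hi

lemma St_card (n : ℕ) : (St hr n).card = (bt n).card := Finset.card_image_of_injOn (io_injOn hr n)

lemma St_erase {n i : ℕ} (hi : i ∈ bt n) : St hr (n ^^^ 2 ^ i) = (St hr n).erase (io hr i) := by
  have h35 := (mem_bt.mp hi).1
  ext v
  rw [Finset.mem_erase]
  unfold St
  rw [Finset.mem_image, Finset.mem_image, bt_erase hi]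
  constructor
  · rintro ⟨j, hj, rfl⟩
    obtain ⟨h1, h2⟩ := Finset.mem_erase.mp hj
    exact ⟨fun h => h1 (io_inj hr (mem_bt.mp h2).1 h35 h), j, h2, rfl⟩
  · rintro ⟨h1, j, hj, rfl⟩
    exact ⟨j, Finset.mem_erase.mpr ⟨fun h => h1 (by rw [h]), hj⟩, rfl⟩

lemma St_insert {n i : ℕ} (h35 : i < 35) (hi : i ∉ bt n) :
    St hr (n ^^^ 2 ^ i) = insert (io hr i) (St hr n) := by
  unfold St
  rw [bt_insert h35 hi, Finset.image_insert]

/-- the number of bits of `n` below `i` -/
def nb (n i : ℕ) : ℕ := ((bt n).filter (fun j => j < i)).card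

lemma sg_St {n i : ℕ} (h35 : i < 35) : sg (St hr n) (io hr i) = (-1) ^ nb n i := by
  unfold sg nb
  congr 1
  unfold St
  rw [Finset.filter_image, Finset.card_image_of_injOn]
  · congr 1
    refine Finset.filter_congr (fun j hj => ?_)
    exact io_lt hr (mem_bt.mp hj).1 h35
  · intro a ha b hb h
    exact io_injOn hr n (Finset.mem_filter.mp ha).1 (Finset.mem_filter.mp hb).1 h

end SetOf

end Pool.Agent.Q194.VT
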