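import Mathlib

/-!
Ranks of integer matrices over `ZMod p` and over `ℚ`: the rank modulo `p` is at most the rational
rank, and it is strictly smaller when there is a certificate `w`, `φ` with `p ∣ A w`, `p ∣ φ A` and
`p² ∤ φ A w`.
-/

set_option autoImplicit false

namespace Pool.Agent.Q194.VT

open Module

section Descent

variable {m κ : Type*} [Fintype κ] (p : ℕ) [hp : Fact p.Prime]

lemma dvd_of_rel (c : κ → m → ℤ)
    (hc : LinearIndependent (ZMod p) (fun i => fun x => ((c i x : ℤ) : ZMod p)))
    (t : κ → ℤ) (h : ∀ x, (p : ℤ) ∣ ∑ i, t i * c i x) (i : κ) : (p : ℤ) ∣ t i := by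
  have h1 := Fintype.linearIndependent_iff.mp hc (fun i => (t i : ZMod p)) (by
    funext x
    have h2 := (ZMod.intCast_zmod_eq_zero_iff_dvd _ p).mpr (h x)
    simpa [Finset.sum_apply] using h2)
  exact (ZMod.intCast_zmod_eq_zero_iff_dvd _ p).mp (h1 i)

lemma rel_zero (c : κ → m → ℤ)
    (hc : LinearIndependent (ZMod p) (fun i => fun x => ((c i x : ℤ) : ZMod p)))
    (t : κ → ℤ) (h : ∀ x, ∑ i, t i * c i x = 0) (i : κ) : t i = 0 := by
  have key : ∀ k : ℕ, ∀ t : κ → ℤ, (∀ x, ∑ i, t i * c i x = 0) → ∀ i, (p : ℤ) ^ k ∣ t i := by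
    intro k
    induction k with
    | zero => intro t _ i; simp
    | succ k ih =>
      intro t ht i
      have h1 : ∀ i, (p : ℤ) ∣ t i := dvd_of_rel p c hc t (fun x => by rw [ht x]; exact dvd_zero _)
      choose t' ht' using h1
      have h2 : ∀ x, ∑ i, t' i * c i x = 0 := by
        intro x
        have h3 : (p : ℤ) * ∑ i, t' i * c i x = 0 := by
          rw [Finset.mul_sum, ← ht x]
          exact Finset.sum_congr rfl (fun i _ => by rw [ht' i]; ring)
        rcases mul_eq_zero.mp h3 with h4 | h4
        · exact absurd (by exact_mod_cast h4) hp.out.ne_zero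
        · exact h4
      rw [ht' i, pow_succ, mul_comm]
      exact mul_dvd_mul_left _ (ih t' h2 i)
  by_contra hne
  have h5 : Int.natAbs (t i) ≠ 0 := by simpa using hne
  obtain ⟨k, hk⟩ : ∃ k, Int.natAbs (t i) < p ^ k := ⟨_, Nat.lt_pow_self hp.out.one_lt⟩
  have h6 := key k t h i
  have h7 : p ^ k ∣ Int.natAbs (t i) := by
    have := Int.natAbs_dvd_natAbs.mpr h6
    simpa [Int.natAbs_pow] using this
  exact absurd (Nat.le_of_dvd (Nat.pos_of_ne_zero h5) h7) (not_le.mpr hk)

lemma indep_rat (c : κ → m → ℤ)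
    (hc : LinearIndependent (ZMod p) (fun i => fun x => ((c i x : ℤ) : ZMod p))) :
    LinearIndependent ℚ (fun i => fun x => ((c i x : ℤ) : ℚ)) := by
  rw [← LinearIndependent.iff_fractionRing ℤ ℚ, Fintype.linearIndependent_iff]
  intro t ht i
  refine rel_zero p c hc t (fun x => ?_) i
  have h1 := congrFun ht x
  simp only [Finset.sum_apply, Pi.smul_apply, Pi.zero_apply] at h1
  simp only [zsmul_eq_mul] at h1
  exact_mod_cast h1

lemma descent (c : κ → m → ℤ)
    (hc : LinearIndependent (ZMod p) (fun i => fun x => ((c i x : ℤ) : ZMod p)))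
    [Fintype m] (φ : m → ℤ) (hφ : ∀ i, (p : ℤ) ∣ ∑ x, φ x * c i x)
    (v : m → ℤ) (hv : ∀ x, (p : ℤ) ∣ v x) :
    ∀ N : ℕ, ∀ (s : ℤ) (t : κ → ℤ), s.natAbs ≤ N → s ≠ 0 → (∀ x, s * v x = ∑ i, t i * c i x) →
      (p : ℤ) ^ 2 ∣ ∑ x, φ x * v x := by
  intro N
  induction N with
  | zero => intro s t hs h0; exact absurd (by simpa using hs) h0
  | succ N ih =>
    intro s t hs h0 h
    have h1 : ∀ i, (p : ℤ) ∣ t i := dvd_of_rel p c hc t (fun x => by
      rw [← h x]; exact Dvd.dvd.mul_left (hv x) _)
    choose t' ht' using h1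
    have hp0 : (p : ℤ) ≠ 0 := by exact_mod_cast hp.out.ne_zero
    by_cases hps : (p : ℤ) ∣ s
    · obtain ⟨s', hs'⟩ := hps
      refine ih s' t' ?_ ?_ ?_
      · have h2 : s.natAbs = p * s'.natAbs := by rw [hs', Int.natAbs_mul, Int.natAbs_natCast]
        have h3 : s'.natAbs ≠ 0 := by
          intro h4; rw [h4] at h2; exact h0 (by simpa using h2)
        have h5 := hp.out.two_le
        nlinarith [Nat.pos_of_ne_zero h3]
      · rintro rfl; exact h0 (by simpa using hs')
      · intro x
        have h6 := h x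
        rw [hs'] at h6
        have h7 : ∑ i, t i * c i x = (p : ℤ) * ∑ i, t' i * c i x := by
          rw [Finset.mul_sum]
          exact Finset.sum_congr rfl (fun i _ => by rw [ht' i]; ring)
        rw [h7, mul_assoc] at h6
        exact mul_left_cancel₀ hp0 h6
    · choose e he using hφ
      have h8 : s * ∑ x, φ x * v x = (p : ℤ) ^ 2 * ∑ i, t' i * e i := by
        calc s * ∑ x, φ x * v x = ∑ x, φ x * (s * v x) := by
              rw [Finset.mul_sum]; exact Finset.sum_congr rfl (fun x _ => by ring)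
          _ = ∑ x, ∑ i, φ x * (t i * c i x) := by
              refine Finset.sum_congr rfl (fun x _ => ?_)
              rw [h x, Finset.mul_sum]
          _ = ∑ i, t i * ∑ x, φ x * c i x := by
              rw [Finset.sum_comm]
              refine Finset.sum_congr rfl (fun i _ => ?_)
              rw [Finset.mul_sum]
              exact Finset.sum_congr rfl (fun x _ => by ring)
          _ = (p : ℤ) ^ 2 * ∑ i, t' i * e i := by
              rw [Finset.mul_sum]
              refine Finset.sum_congr rfl (fun i _ => ?_)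
              rw [he i, ht' i]; ring
      have hcop : IsCoprime ((p : ℤ) ^ 2) s := by
        refine IsCoprime.pow_left ?_
        have hpi : Prime (p : ℤ) := Nat.prime_iff_prime_int.mp hp.out
        exact (Irreducible.coprime_iff_not_dvd hpi.irreducible).mpr hps
      exact hcop.dvd_of_dvd_mul_left (Dvd.intro _ h8.symm)

end Descent

section Rank

variable {m n : Type} [Fintype m] [Fintype n] (p : ℕ) [hp : Fact p.Prime]

/-- reduction of an integer matrix to a ring -/
def red (K : Type*) [Ring K] (A : Matrix m n ℤ) : Matrix m n K := A.map (fun z : ℤ => (z : K))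

lemma col_red (K : Type*) [Ring K] (A : Matrix m n ℤ) (j : n) :
    (red K A).col j = fun x => ((A x j : ℤ) : K) := rfl

lemma exists_cols (A : Matrix m n ℤ) : ∃ (κ : Type) (_ : Fintype κ) (a : κ → n),
    LinearIndependent (ZMod p) (fun i : κ => fun x => ((A x (a i) : ℤ) : ZMod p)) ∧
      (red (ZMod p) A).rank = Fintype.card κ := by
  obtain ⟨κ, a, ha, hs, hl⟩ := exists_linearIndependent' (ZMod p) (red (ZMod p) A).col
  have : Finite κ := Finite.of_injective a ha
  refine ⟨κ, Fintype.ofFinite κ, a, hl, ?_⟩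
  letI := Fintype.ofFinite κ
  rw [Matrix.rank_eq_finrank_span_cols, ← hs]
  exact finrank_span_eq_card hl

lemma rank_le (A : Matrix m n ℤ) : (red (ZMod p) A).rank ≤ (red ℚ A).rank := by
  obtain ⟨κ, _, a, hl, hr⟩ := exists_cols p A
  rw [hr]
  have h1 := indep_rat p (fun i x => A x (a i)) hl
  rw [← finrank_span_eq_card h1, Matrix.rank_eq_finrank_span_cols]
  refine Submodule.finrank_mono (Submodule.span_mono ?_)
  rintro _ ⟨i, rfl⟩
  exact ⟨a i, rfl⟩

lemma rank_lt (A : Matrix m n ℤ) (w : n → ℤ) (φ : m → ℤ)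
    (hw : ∀ x, (p : ℤ) ∣ ∑ j, A x j * w j) (hφ : ∀ j, (p : ℤ) ∣ ∑ x, φ x * A x j)
    (hb : ¬ (p : ℤ) ^ 2 ∣ ∑ x, φ x * ∑ j, A x j * w j) :
    (red (ZMod p) A).rank < (red ℚ A).rank := by
  obtain ⟨κ, _, a, hl, hr⟩ := exists_cols p A
  refine lt_of_le_of_ne (rank_le p A) (fun heq => hb ?_)
  have h1 := indep_rat p (fun i x => A x (a i)) hl
  have hle : Submodule.span ℚ (Set.range (fun i : κ => fun x => ((A x (a i) : ℤ) : ℚ))) ≤
      Submodule.span ℚ (Set.range (red ℚ A).col) := by
    refine Submodule.span_mono ?_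
    rintro _ ⟨i, rfl⟩
    exact ⟨a i, rfl⟩
  have h2 := Submodule.eq_of_le_of_finrank_le hle (by
    rw [finrank_span_eq_card h1, ← Matrix.rank_eq_finrank_span_cols, ← heq, hr])
  have h3 : (fun x => ((∑ j, A x j * w j : ℤ) : ℚ)) ∈
      Submodule.span ℚ (Set.range (fun i : κ => fun x => ((A x (a i) : ℤ) : ℚ))) := by
    rw [h2]
    have h4 : (fun x => ((∑ j, A x j * w j : ℤ) : ℚ)) = ∑ j, (w j : ℚ) • (red ℚ A).col j := by
      funext x
      simp only [Finset.sum_apply, Pi.smul_apply, col_red, smul_eq_mul, Int.cast_sum, Int.cast_mul]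
      exact Finset.sum_congr rfl (fun j _ => mul_comm _ _)
    rw [h4]
    exact Submodule.sum_mem _ (fun j _ => Submodule.smul_mem _ _
      (Submodule.subset_span ⟨j, rfl⟩))
  rw [Submodule.mem_span_range_iff_exists_fun] at h3
  obtain ⟨q, hq⟩ := h3
  obtain ⟨s, hs⟩ := IsLocalization.exist_integer_multiples_of_finite (nonZeroDivisors ℤ) q
  choose t ht using hs
  have hs0 : (s : ℤ) ≠ 0 := nonZeroDivisors.coe_ne_zero s
  refine descent p (fun i x => A x (a i)) hl φ (fun i => hφ (a i)) _ hw _ (s : ℤ) t le_rfl hs0 ?_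
  intro x
  have h5 := congrFun hq x
  simp only [Finset.sum_apply, Pi.smul_apply, smul_eq_mul] at h5
  have h6 : ∀ i, ((t i : ℤ) : ℚ) = (s : ℤ) * q i := by
    intro i
    have := ht i
    simpa [zsmul_eq_mul] using this
  have h7 : (((s : ℤ) * ∑ j, A x j * w j : ℤ) : ℚ) = ((∑ i, t i * A x (a i) : ℤ) : ℚ) := by
    rw [Int.cast_mul, ← h5, Int.cast_sum, Finset.mul_sum]
    refine Finset.sum_congr rfl (fun i _ => ?_)
    rw [Int.cast_mul, h6 i]; ring
  exact_mod_cast h7

/-- The rank of an integer matrix does not change under extensions of fields. -/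
lemma rank_red_ext (K L : Type*) [Field K] [Field L] [Algebra K L] (A : Matrix m n ℤ) :
    (red L A).rank = (red K A).rank := by
  obtain ⟨κ, a, ha, hs, hl⟩ := exists_linearIndependent' K (red K A).col
  have : Finite κ := Finite.of_injective a ha
  letI := Fintype.ofFinite κ
  have hcol : ∀ j, (red L A).col j = algebraMap K L ∘ (red K A).col j := by
    intro j
    rw [col_red, col_red]
    funext x
    simp only [Function.comp, map_intCast]
  have hl' : LinearIndependent L ((red L A).col ∘ a) := by
    have h1 := (linearIndependent_algebraMap_comp_iff (R := K) (S := L)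
      (v := fun i => (red K A).col (a i))).mpr hl
    have h2 : (red L A).col ∘ a = fun i => algebraMap K L ∘ (red K A).col (a i) := by
      funext i; exact hcol (a i)
    rw [h2]; exact h1
  have hspan : Submodule.span L (Set.range ((red L A).col ∘ a)) =
      Submodule.span L (Set.range (red L A).col) := by
    refine le_antisymm (Submodule.span_mono ?_) (Submodule.span_le.mpr ?_)
    · rintro _ ⟨i, rfl⟩; exact ⟨a i, rfl⟩
    · rintro _ ⟨j, rfl⟩
      have h3 : (red K A).col j ∈ Submodule.span K (Set.range ((red K A).col ∘ a)) := by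
        rw [hs]; exact Submodule.subset_span ⟨j, rfl⟩
      rw [Submodule.mem_span_range_iff_exists_fun] at h3
      obtain ⟨c, hc⟩ := h3
      have h4 : (red L A).col j = ∑ i, algebraMap K L (c i) • (red L A).col (a i) := by
        rw [hcol j, ← hc]
        funext x
        simp only [Function.comp, Finset.sum_apply, Pi.smul_apply, smul_eq_mul, map_sum, map_mul]
        refine Finset.sum_congr rfl (fun i _ => ?_)
        rw [hcol (a i)]
        rfl
      change (red L A).col j ∈ Submodule.span L (Set.range ((red L A).col ∘ a))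
      rw [h4]
      exact Submodule.sum_mem _ (fun i _ => Submodule.smul_mem _ _
        (Submodule.subset_span ⟨i, rfl⟩))
  have e1 : (red L A).rank = Fintype.card κ := by
    rw [Matrix.rank_eq_finrank_span_cols, ← hspan]
    exact finrank_span_eq_card hl'
  have e2 : (red K A).rank = Fintype.card κ := by
    rw [Matrix.rank_eq_finrank_span_cols, ← hs]
    exact finrank_span_eq_card hl
  rw [e1, e2]

end Rank

end Pool.Agent.Q194.VT
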