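import Pool.Agent.Q194.VT.Defs
import Pool.Agent.Q194.VT.LA

/-!
The Koszul differential squares to zero, and the Betti numbers through ranks of integer matrices.
-/

set_option autoImplicit false

namespace Pool.Agent.Q194.VT

open Finset MvPolynomial

variable {r d : ℕ}

lemma sg_swap_lt (T : Finset (Mon r d)) (v w : Mon r d) (hv : v ∉ T) (hvw : v < w) :
    sg T v * sg (insert v T) w = - (sg T w * sg (insert w T) v) := by
  have h1 : (insert v T).filter (fun u => u < w) = insert v (T.filter (fun u => u < w)) := by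
    rw [Finset.filter_insert, if_pos hvw]
  have h2 : (insert w T).filter (fun u => u < v) = T.filter (fun u => u < v) := by
    rw [Finset.filter_insert, if_neg (not_lt.mpr hvw.le)]
  have h3 : v ∉ T.filter (fun u => u < w) := fun h => hv (Finset.mem_filter.mp h).1
  unfold sg
  rw [h1, h2, Finset.card_insert_of_notMem h3, pow_succ]
  ring

lemma sg_swap (T : Finset (Mon r d)) (v w : Mon r d) (hv : v ∉ T) (hw : w ∉ T) (hvw : v ≠ w) :
    sg T v * sg (insert v T) w = - (sg T w * sg (insert w T) v) := by
  rcases lt_or_gt_of_ne hvw with h | h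
  · exact sg_swap_lt T v w hv h
  · have := sg_swap_lt T w v hw h
    omega

variable (k : Type*) [Field k]

lemma kosD_apply (f : Fam k r d) (T : Finset (Mon r d)) :
    kosD k r d f T = ∑ v ∈ Tᶜ, ((sg T v : ℤ) : k) • (monomial v.exp (1 : k) * f (insert v T)) := rfl

lemma kosD_kosD (f : Fam k r d) :
    kosD k r d (kosD k r d f) = 0 := by
  funext T
  rw [kosD_apply]
  have h1 : ∀ v ∈ Tᶜ, ((sg T v : ℤ) : k) • (monomial v.exp (1 : k) * kosD k r d f (insert v T)) =
      ∑ w ∈ (insert v T)ᶜ, ((sg T v * sg (insert v T) w : ℤ) : k) •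
        (monomial (v.exp + w.exp) (1 : k) * f (insert w (insert v T))) := by
    intro v _
    rw [kosD_apply, Finset.mul_sum, Finset.smul_sum]
    refine Finset.sum_congr rfl (fun w _ => ?_)
    rw [mul_smul_comm, smul_smul, ← mul_assoc, monomial_mul, one_mul, Int.cast_mul]
  rw [Finset.sum_congr rfl h1, Finset.sum_sigma' Tᶜ (fun v => (insert v T)ᶜ)
    (fun v w => ((sg T v * sg (insert v T) w : ℤ) : k) •
        (monomial (v.exp + w.exp) (1 : k) * f (insert w (insert v T))))]
  have hmem : ∀ a : (_ : Mon r d) × Mon r d, a ∈ Tᶜ.sigma (fun v => (insert v T)ᶜ) ↔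
      a.1 ∉ T ∧ a.2 ∉ T ∧ a.1 ≠ a.2 := by
    intro a
    simp only [Finset.mem_sigma, Finset.mem_compl, Finset.mem_insert, not_or]
    constructor
    · rintro ⟨h1, h2, h3⟩; exact ⟨h1, h3, fun h => h2 h.symm⟩
    · rintro ⟨h1, h2, h3⟩; exact ⟨h1, fun h => h3 h.symm, h2⟩
  refine Finset.sum_involution (fun a _ => ⟨a.2, a.1⟩) ?_ ?_ ?_ ?_
  · intro a ha
    obtain ⟨h1, h2, h3⟩ := (hmem a).mp ha
    dsimp only
    rw [sg_swap T a.1 a.2 h1 h2 h3, Finset.insert_comm a.2 a.1, add_comm a.1.exp a.2.exp]
    simp
  · intro a ha _ h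
    obtain ⟨h1, h2, h3⟩ := (hmem a).mp ha
    apply h3
    have := congrArg (fun x : (_ : Mon r d) × Mon r d => x.1) h
    exact this.symm
  · intro a ha
    obtain ⟨h1, h2, h3⟩ := (hmem a).mp ha
    exact (hmem _).mpr ⟨h2, h1, fun h => h3 h.symm⟩
  · intro a _; rfl

/-- the basis of `K_{i,j}` -/
@[ext] structure Idx (r d i j : ℕ) where
  /-- the set of variables -/
  T : Finset (Mon r d)
  /-- the exponent of the coefficient -/
  a : Fin (r + 1) →₀ ℕ
  card : T.card = i
  le : i ≤ j
  deg : a.degree = (j - i) * d

instance (i j : ℕ) : Finite (Idx r d i j) := by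
  refine Finite.of_injective (fun x : Idx r d i j =>
    ((x.T, ⟨x.a, x.deg⟩) : Finset (Mon r d) × Mon r ((j - i) * d))) ?_
  intro x y h
  exact Idx.ext (congrArg Prod.fst h) (congrArg (fun z => z.2.exp) h)

noncomputable instance (i j : ℕ) : Fintype (Idx r d i j) := Fintype.ofFinite _

noncomputable instance (i j : ℕ) : DecidableEq (Idx r d i j) := Classical.decEq _

/-- coordinates of an element of `K_{i,j}` -/
noncomputable def coords (i j : ℕ) : chain k r d i j →ₗ[k] (Idx r d i j → k) where
  toFun f x := coeff x.a (f.1 x.T)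
  map_add' f g := by funext x; simp
  map_smul' c f := by funext x; simp

lemma coords_injective (i j : ℕ) : Function.Injective (coords k (r := r) (d := d) i j) := by
  intro f g h
  refine Subtype.ext (funext fun T => MvPolynomial.ext _ _ (fun a => ?_))
  by_cases h1 : T.card = i ∧ i ≤ j ∧ a.degree = (j - i) * d
  · exact congrFun h ⟨T, a, h1.1, h1.2.1, h1.2.2⟩
  · have key : ∀ f : chain k r d i j, coeff a (f.1 T) = 0 := by
      intro f
      by_cases h2 : T.card ≠ i ∨ j < i
      · rw [(f.2 T).1 h2, coeff_zero]
      · push Not at h2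
        refine (f.2 T).2.coeff_eq_zero (fun h3 => h1 ⟨h2.1, h2.2, h3⟩)
    rw [key f, key g]

lemma coords_surjective (i j : ℕ) : Function.Surjective (coords k (r := r) (d := d) i j) := by
  intro g
  classical
  have hmem : (fun T : Finset (Mon r d) => ∑ x : Idx r d i j,
      if x.T = T then monomial x.a (g x) else 0) ∈ chain k r d i j := by
    intro T
    constructor
    · intro h
      refine Finset.sum_eq_zero (fun x _ => ?_)
      rw [if_neg]
      rintro rfl
      rcases h with h | h
      · exact h x.card
      · exact absurd x.le (not_le.mpr h)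
    · refine IsHomogeneous.sum _ _ _ (fun x _ => ?_)
      split_ifs with h
      · exact isHomogeneous_monomial _ x.deg
      · exact isHomogeneous_zero _ _ _
  refine ⟨⟨_, hmem⟩, ?_⟩
  funext x
  change coeff x.a (∑ y : Idx r d i j, if y.T = x.T then monomial y.a (g y) else 0) = g x
  rw [coeff_sum, Finset.sum_eq_single x]
  · rw [if_pos rfl, coeff_monomial, if_pos rfl]
  · intro y _ hy
    split_ifs with h
    · rw [coeff_monomial, if_neg]
      intro h'
      exact hy (Idx.ext h h')
    · exact coeff_zero _
  · intro h; exact absurd (Finset.mem_univ _) h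

/-- `K_{i,j}` is the space of functions on its basis -/
noncomputable def coordsE (i j : ℕ) : chain k r d i j ≃ₗ[k] (Idx r d i j → k) :=
  LinearEquiv.ofBijective (coords k i j) ⟨coords_injective k i j, coords_surjective k i j⟩

instance (i j : ℕ) : Module.Finite k (chain k r d i j) :=
  Module.Finite.equiv (coordsE k i j).symm

/-- the integer matrix of the differential `K_{i+1,j} → K_{i,j}` -/
noncomputable def A (r d i j : ℕ) : Matrix (Idx r d i j) (Idx r d (i + 1) j) ℤ := fun x y =>
  ∑ v : Mon r d, if v ∉ x.T ∧ insert v x.T = y.T ∧ y.a + v.exp = x.a then sg x.T v else 0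

lemma kosD_mem (i j : ℕ) (f : Fam k r d)
    (hf : f ∈ chain k r d (i + 1) j) : kosD k r d f ∈ chain k r d i j := by
  intro T
  rw [kosD_apply]
  constructor
  · intro h
    refine Finset.sum_eq_zero (fun v hv => ?_)
    have h1 : f (insert v T) = 0 := by
      refine (hf (insert v T)).1 ?_
      rcases h with h | h
      · left
        rw [Finset.card_insert_of_notMem (Finset.mem_compl.mp hv)]
        omega
      · right; omega
    rw [h1, mul_zero, smul_zero]
  · refine IsHomogeneous.sum _ _ _ (fun v _ => ?_)
    rw [smul_eq_C_mul]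
    by_cases hj : j < i + 1
    · rw [(hf (insert v T)).1 (Or.inr hj), mul_zero, mul_zero]
      exact isHomogeneous_zero _ _ _
    · have h1 := (isHomogeneous_monomial (1 : k) v.deg).mul (hf (insert v T)).2
      have h2 := (isHomogeneous_C (Fin (r + 1)) ((sg T v : ℤ) : k)).mul h1
      have h3 : 0 + (d + (j - (i + 1)) * d) = (j - i) * d := by
        obtain ⟨e, he⟩ := Nat.exists_eq_add_of_le (not_lt.mp hj)
        have e1 : j - (i + 1) = e := by omega
        have e2 : j - i = e + 1 := by omega
        rw [e1, e2]; ring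
      rw [h3] at h2
      exact h2

/-- the differential `K_{i+1,j} → K_{i,j}` -/
noncomputable def Dn (i j : ℕ) : chain k r d (i + 1) j →ₗ[k] chain k r d i j :=
  (kosD k r d).restrict (kosD_mem k i j)

lemma coords_Dn (i j : ℕ) (f : chain k r d (i + 1) j) :
    coords k i j (Dn k i j f) = (red k (A r d i j)).mulVec (coords k (i + 1) j f) := by
  classical
  funext x
  change coeff x.a (kosD k r d f.1 x.T) = _
  rw [kosD_apply, coeff_sum]
  change _ = ∑ y : Idx r d (i + 1) j, ((A r d i j x y : ℤ) : k) * coeff y.a (f.1 y.T)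
  have h1 : ∀ y : Idx r d (i + 1) j, ((A r d i j x y : ℤ) : k) * coeff y.a (f.1 y.T) =
      ∑ v : Mon r d, if v ∉ x.T ∧ insert v x.T = y.T ∧ y.a + v.exp = x.a then
        ((sg x.T v : ℤ) : k) * coeff y.a (f.1 y.T) else 0 := by
    intro y
    unfold A
    rw [Int.cast_sum, Finset.sum_mul]
    refine Finset.sum_congr rfl (fun v _ => ?_)
    split_ifs <;> simp
  rw [Finset.sum_congr rfl (fun y _ => h1 y), Finset.sum_comm]
  rw [← Finset.sum_subset (Finset.subset_univ (x.T)ᶜ)]
  · refine Finset.sum_congr rfl (fun v hv => ?_)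
    have hv' : v ∉ x.T := Finset.mem_compl.mp hv
    rw [coeff_smul, smul_eq_mul, coeff_monomial_mul']
    by_cases hle : v.exp ≤ x.a
    · by_cases hij : i + 1 ≤ j
      · have hdeg : (x.a - v.exp).degree = (j - (i + 1)) * d := by
          have h2 : x.a.degree = (x.a - v.exp).degree + v.exp.degree := by
            rw [← map_add, tsub_add_cancel_of_le hle]
          rw [x.deg, v.deg] at h2
          have e2 : (j - i) * d = (j - (i + 1)) * d + d := by
            have : j - i = (j - (i + 1)) + 1 := by omega
            rw [this]; ring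
          omega
        have hcard : (insert v x.T).card = i + 1 := by
          rw [Finset.card_insert_of_notMem hv', x.card]
        rw [Finset.sum_eq_single (⟨insert v x.T, x.a - v.exp, hcard, hij, hdeg⟩ :
          Idx r d (i + 1) j)]
        · rw [if_pos hle, if_pos ⟨hv', rfl, tsub_add_cancel_of_le hle⟩, one_mul]
        · intro y _ hy
          rw [if_neg]
          rintro ⟨_, h3, h4⟩
          refine hy (Idx.ext h3.symm ?_)
          change y.a = x.a - v.exp
          rw [← h4, add_tsub_cancel_right]
        · intro h; exact absurd (Finset.mem_univ _) h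
      · have h5 : f.1 (insert v x.T) = 0 := (f.2 _).1 (Or.inr (by omega))
        rw [h5, coeff_zero, mul_zero, ite_self, mul_zero]
        refine (Finset.sum_eq_zero (fun y _ => ?_)).symm
        exact absurd y.le hij
    · rw [if_neg hle, mul_zero]
      refine (Finset.sum_eq_zero (fun y _ => ?_)).symm
      rw [if_neg]
      rintro ⟨_, _, h4⟩
      exact hle (h4 ▸ le_add_self)
  · intro v _ hv
    refine Finset.sum_eq_zero (fun y _ => ?_)
    rw [if_neg]
    rintro ⟨h3, _⟩
    exact hv (Finset.mem_compl.mpr h3)

lemma finrank_range_Dn (i j : ℕ) :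
    Module.finrank k (LinearMap.range (Dn k (r := r) (d := d) i j)) = (red k (A r d i j)).rank := by
  classical
  have h1 : (coordsE k i j).toLinearMap ∘ₗ (Dn k (r := r) (d := d) i j) =
      (red k (A r d i j)).mulVecLin ∘ₗ (coordsE k (i + 1) j).toLinearMap := by
    refine LinearMap.ext (fun f => ?_)
    exact coords_Dn k i j f
  have h2 : LinearMap.range ((coordsE k i j).toLinearMap ∘ₗ (Dn k (r := r) (d := d) i j)) =
      LinearMap.range (red k (A r d i j)).mulVecLin := by
    rw [h1, LinearMap.range_comp_of_range_eq_top]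
    exact LinearEquiv.range _
  rw [Matrix.rank, ← h2, LinearMap.range_comp]
  exact (LinearEquiv.finrank_map_eq (coordsE k i j) _).symm

lemma finrank_chain (i j : ℕ) :
    Module.finrank k (chain k r d i j) = Fintype.card (Idx r d i j) := by
  rw [(coordsE k i j).finrank_eq, Module.finrank_fintype_fun_eq_card]

theorem betti_add (i j : ℕ) :
    betti k r d (i + 1) j + (red k (A r d (i + 1) j)).rank + (red k (A r d i j)).rank =
      Fintype.card (Idx r d (i + 1) j) := by
  classical
  set Z := cycles k r d (i + 1) j with hZ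
  set B := boundaries k r d (i + 1) j with hB
  have hBZ : B ≤ Z := by
    rintro _ ⟨f, hf, rfl⟩
    exact ⟨LinearMap.mem_ker.mpr (kosD_kosD k f), kosD_mem k _ _ f hf⟩
  have hfinZ : Module.Finite k Z :=
    Module.Finite.of_injective (Submodule.inclusion (inf_le_right : Z ≤ chain k r d (i + 1) j))
      (Submodule.inclusion_injective _)
  have e1 : Module.finrank k B ≤ Module.finrank k Z := Submodule.finrank_mono hBZ
  have e3 : B = (LinearMap.range (Dn k (r := r) (d := d) (i + 1) j)).map
      (chain k r d (i + 1) j).subtype := by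
    ext f
    constructor
    · rintro ⟨g, hg, rfl⟩
      exact ⟨Dn k (i + 1) j ⟨g, hg⟩, ⟨⟨g, hg⟩, rfl⟩, rfl⟩
    · rintro ⟨_, ⟨g, rfl⟩, rfl⟩
      exact ⟨g.1, g.2, rfl⟩
  have e4 : Module.finrank k B = (red k (A r d (i + 1) j)).rank := by
    rw [e3, Submodule.finrank_map_subtype_eq, finrank_range_Dn]
  have e5 : Z = (LinearMap.ker (Dn k (r := r) (d := d) i j)).map
      (chain k r d (i + 1) j).subtype := by
    ext f
    constructor
    · rintro ⟨h1, h2⟩
      refine ⟨⟨f, h2⟩, ?_, rfl⟩
      refine LinearMap.mem_ker.mpr (Subtype.ext ?_)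
      exact LinearMap.mem_ker.mp h1
    · rintro ⟨g, hg, rfl⟩
      refine ⟨?_, g.2⟩
      have := congrArg Subtype.val (LinearMap.mem_ker.mp hg)
      exact LinearMap.mem_ker.mpr this
  have e6 : Module.finrank k Z = Module.finrank k (LinearMap.ker (Dn k (r := r) (d := d) i j)) := by
    rw [e5, Submodule.finrank_map_subtype_eq]
  have e7 := LinearMap.finrank_range_add_finrank_ker (Dn k (r := r) (d := d) i j)
  rw [finrank_range_Dn, finrank_chain] at e7
  have e8 : betti k r d (i + 1) j = Module.finrank k Z - Module.finrank k B := rfl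
  rw [e8]
  omega

/-- The Betti numbers depend on the field only through its characteristic. -/
theorem betti_ext (K L : Type*) [Field K] [Field L] [Algebra K L] (i j : ℕ) :
    betti L r d (i + 1) j = betti K r d (i + 1) j := by
  have a1 := betti_add K (r := r) (d := d) i j
  have a2 := betti_add L (r := r) (d := d) i j
  rw [rank_red_ext K L, rank_red_ext K L] at a2
  omega

/-- **Strictness.** -/
theorem betti_lt (p : ℕ) [hp : Fact p.Prime] (i j : ℕ)
    (h : (red (ZMod p) (A r d (i + 1) j)).rank < (red ℚ (A r d (i + 1) j)).rank) :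
    betti ℚ r d (i + 1) j < betti (ZMod p) r d (i + 1) j ∧
      betti ℚ r d (i + 2) j < betti (ZMod p) r d (i + 2) j := by
  have a1 := betti_add ℚ (r := r) (d := d) i j
  have a2 := betti_add (ZMod p) (r := r) (d := d) i j
  have a3 := betti_add ℚ (r := r) (d := d) (i + 1) j
  have a4 := betti_add (ZMod p) (r := r) (d := d) (i + 1) j
  have b1 := rank_le p (A r d i j)
  have b2 := rank_le p (A r d (i + 2) j)
  change betti ℚ r d (i + 2) j + (red ℚ (A r d (i + 2) j)).rank +
    (red ℚ (A r d (i + 1) j)).rank = _ at a3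
  change betti (ZMod p) r d (i + 2) j + (red (ZMod p) (A r d (i + 2) j)).rank +
    (red (ZMod p) (A r d (i + 1) j)).rank = _ at a4
  constructor
  · omega
  · rw [← a3] at a4
    omega

end Pool.Agent.Q194.VT
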